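import Mathlib

/-!
Combinatorics of the n-armed square spiral in the integer lattice.
-/

set_option autoImplicit false

namespace Pool.Agent.H56.Spiral

/-- going up -/
def Rg (n x y : ℤ) : Prop :=
  x % 2 = 1 ∧ ((3 ≤ x ∧ x ≤ 2 * n - 1 ∧ 0 ≤ y ∧ y ≤ x - 2) ∨
    (2 * n + 1 ≤ x ∧ 2 * n - x ≤ y ∧ y ≤ x - 2))
/-- going left -/
def Tp (x y : ℤ) : Prop := y % 2 = 0 ∧ 0 ≤ y ∧ 1 - y ≤ x ∧ x ≤ 1 + y
/-- going down -/
def Lf (x y : ℤ) : Prop := x % 2 = 0 ∧ x ≤ 0 ∧ x ≤ y ∧ y ≤ -x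
/-- going right -/
def Bt (n x y : ℤ) : Prop := y % 2 = 1 ∧ y ≤ -1 ∧ y + 1 ≤ x ∧ x ≤ 2 * n - 1 - y

instance (n x y : ℤ) : Decidable (Rg n x y) := by unfold Rg; infer_instance
instance (x y : ℤ) : Decidable (Tp x y) := by unfold Tp; infer_instance
instance (x y : ℤ) : Decidable (Lf x y) := by unfold Lf; infer_instance
instance (n x y : ℤ) : Decidable (Bt n x y) := by unfold Bt; infer_instance

def Vtx (n : ℤ) (P : ℤ × ℤ) : Prop :=
  Rg n P.1 P.2 ∨ Tp P.1 P.2 ∨ Lf P.1 P.2 ∨ Bt n P.1 P.2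

def nxt (n : ℤ) (P : ℤ × ℤ) : ℤ × ℤ :=
  if Rg n P.1 P.2 then (P.1, P.2 + 1)
  else if Tp P.1 P.2 then (P.1 - 1, P.2)
  else if Lf P.1 P.2 then (P.1, P.2 - 1)
  else (P.1 + 1, P.2)

theorem nxt_Rg {n : ℤ} {P : ℤ × ℤ} (h : Rg n P.1 P.2) : nxt n P = (P.1, P.2 + 1) := by
  simp [nxt, h]

theorem nxt_Tp {n : ℤ} {P : ℤ × ℤ} (h : Tp P.1 P.2) : nxt n P = (P.1 - 1, P.2) := by
  have h1 : ¬ Rg n P.1 P.2 := by unfold Rg Tp at *; omega
  simp [nxt, h, h1]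

theorem nxt_Lf {n : ℤ} (_hn : 1 ≤ n) {P : ℤ × ℤ} (h : Lf P.1 P.2) : nxt n P = (P.1, P.2 - 1) := by
  have h1 : ¬ Rg n P.1 P.2 := by unfold Rg Lf at *; omega
  have h2 : ¬ Tp P.1 P.2 := by unfold Tp Lf at *; omega
  simp [nxt, h, h1, h2]

theorem nxt_Bt {n : ℤ} (_hn : 1 ≤ n) {P : ℤ × ℤ} (h : Bt n P.1 P.2) :
    nxt n P = (P.1 + 1, P.2) := by
  have h1 : ¬ Rg n P.1 P.2 := by unfold Rg Bt at *; omega
  have h2 : ¬ Tp P.1 P.2 := by unfold Tp Bt at *; omega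
  have h3 : ¬ Lf P.1 P.2 := by unfold Lf Bt at *; omega
  simp [nxt, h1, h2, h3]

theorem Vtx_nxt {n : ℤ} (hn : 1 ≤ n) {P : ℤ × ℤ} (h : Vtx n P) : Vtx n (nxt n P) := by
  rcases h with h | h | h | h
  · rw [nxt_Rg h]
    unfold Vtx Rg Tp Lf Bt at *
    simp only
    omega
  · rw [nxt_Tp h]
    unfold Vtx Rg Tp Lf Bt at *
    simp only
    omega
  · rw [nxt_Lf hn h]
    unfold Vtx Rg Tp Lf Bt at *
    simp only
    omega
  · rw [nxt_Bt hn h]
    unfold Vtx Rg Tp Lf Bt at *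
    simp only
    omega

theorem nxt_inj {n : ℤ} (hn : 1 ≤ n) {P Q : ℤ × ℤ} (hP : Vtx n P) (hQ : Vtx n Q)
    (h : nxt n P = nxt n Q) : P = Q := by
  obtain ⟨x, y⟩ := P
  obtain ⟨x', y'⟩ := Q
  rcases hP with h1 | h1 | h1 | h1 <;> rcases hQ with h2 | h2 | h2 | h2 <;>
  · first
      | rw [nxt_Rg h1] at h
      | rw [nxt_Tp h1] at h
      | rw [nxt_Lf hn h1] at h
      | rw [nxt_Bt hn h1] at h
    first
      | rw [nxt_Rg h2] at h
      | rw [nxt_Tp h2] at h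
      | rw [nxt_Lf hn h2] at h
      | rw [nxt_Bt hn h2] at h
    simp only [Prod.mk.injEq] at h ⊢
    simp only [Rg, Tp, Lf, Bt] at h1 h2
    omega

theorem nxt_ne_start {n : ℤ} (hn : 1 ≤ n) {P : ℤ × ℤ} (hP : Vtx n P) {k : ℤ} (_hk : 0 ≤ k)
    (hk' : k < n) : nxt n P ≠ (1 + 2 * k, 0) := by
  obtain ⟨x, y⟩ := P
  intro h
  rcases hP with h1 | h1 | h1 | h1
  · rw [nxt_Rg h1, Prod.mk.injEq] at h
    unfold Rg at h1
    simp only at h1 h
    omega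
  · rw [nxt_Tp h1, Prod.mk.injEq] at h
    unfold Tp at h1
    simp only at h1 h
    omega
  · rw [nxt_Lf hn h1, Prod.mk.injEq] at h
    unfold Lf at h1
    simp only at h1 h
    omega
  · rw [nxt_Bt hn h1, Prod.mk.injEq] at h
    unfold Bt at h1
    simp only at h1 h
    omega

theorem exists_pred {n : ℤ} (hn : 1 ≤ n) {P : ℤ × ℤ} (hP : Vtx n P) :
    (∃ k : ℤ, 0 ≤ k ∧ k < n ∧ P = (1 + 2 * k, 0)) ∨ ∃ Q, Vtx n Q ∧ nxt n Q = P := by
  obtain ⟨x, y⟩ := P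
  rcases hP with h | h | h | h
  · by_cases h0 : Rg n x (y - 1)
    · right
      exact ⟨(x, y - 1), Or.inl h0, by rw [nxt_Rg h0]; simp⟩
    · by_cases h1 : Bt n (x - 1) y
      · right
        exact ⟨(x - 1, y), Or.inr (Or.inr (Or.inr h1)), by rw [nxt_Bt hn h1]; simp⟩
      · left
        refine ⟨(x - 1) / 2, ?_, ?_, ?_⟩ <;>
        · unfold Rg Bt at *
          simp only [Prod.mk.injEq] at *
          omega
  · by_cases h0 : Tp (x + 1) y
    · right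
      exact ⟨(x + 1, y), Or.inr (Or.inl h0), by rw [nxt_Tp h0]; simp⟩
    · by_cases h1 : Rg n x (y - 1)
      · right
        exact ⟨(x, y - 1), Or.inl h1, by rw [nxt_Rg h1]; simp⟩
      · left
        refine ⟨0, ?_, ?_, ?_⟩ <;>
        · unfold Rg Tp at *
          simp only [Prod.mk.injEq] at *
          omega
  · by_cases h0 : Lf x (y + 1)
    · right
      exact ⟨(x, y + 1), Or.inr (Or.inr (Or.inl h0)), by rw [nxt_Lf hn h0]; simp⟩
    · right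
      have h1 : Tp (x + 1) y := by
        unfold Lf Tp at *
        simp only at *
        omega
      exact ⟨(x + 1, y), Or.inr (Or.inl h1), by rw [nxt_Tp h1]; simp⟩
  · by_cases h0 : Bt n (x - 1) y
    · right
      exact ⟨(x - 1, y), Or.inr (Or.inr (Or.inr h0)), by rw [nxt_Bt hn h0]; simp⟩
    · right
      have h1 : Lf x (y + 1) := by
        unfold Lf Bt at *
        simp only at *
        omega
      exact ⟨(x, y + 1), Or.inr (Or.inr (Or.inl h1)), by rw [nxt_Lf hn h1]; simp⟩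

/-- twice the ring index -/
def ring2 (n : ℤ) (P : ℤ × ℤ) : ℤ :=
  if Rg n P.1 P.2 then P.1 - 1
  else if Tp P.1 P.2 then P.2
  else if Lf P.1 P.2 then -P.1
  else -1 - P.2

/-- position inside the ring -/
def loc (n : ℤ) (P : ℤ × ℤ) : ℤ :=
  if Rg n P.1 P.2 then P.1 + P.2
  else if Tp P.1 P.2 then (2 * P.2 + 1) + (1 + P.2 - P.1)
  else if Lf P.1 P.2 then -4 * P.1 + 2 + (-P.1 - P.2)
  else -6 * (P.2 + 1) + 3 + (P.1 - (P.2 + 1))

theorem m_Rg {n x y : ℤ} (h : Rg n x y) :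
    ring2 n (x, y) = x - 1 ∧ loc n (x, y) = x + y := by
  simp [ring2, loc, h]

theorem m_Tp {n x y : ℤ} (h : Tp x y) :
    ring2 n (x, y) = y ∧ loc n (x, y) = (2 * y + 1) + (1 + y - x) := by
  have h1 : ¬ Rg n x y := by simp only [Rg, Tp] at *; omega
  simp [ring2, loc, h, h1]

theorem m_Lf {n x y : ℤ} (_hn : 1 ≤ n) (h : Lf x y) :
    ring2 n (x, y) = -x ∧ loc n (x, y) = -4 * x + 2 + (-x - y) := by
  have h1 : ¬ Rg n x y := by simp only [Rg, Lf] at *; omega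
  have h2 : ¬ Tp x y := by simp only [Tp, Lf] at *; omega
  simp [ring2, loc, h, h1, h2]

theorem m_Bt {n x y : ℤ} (_hn : 1 ≤ n) (h : Bt n x y) :
    ring2 n (x, y) = -1 - y ∧ loc n (x, y) = -6 * (y + 1) + 3 + (x - (y + 1)) := by
  have h1 : ¬ Rg n x y := by simp only [Rg, Bt] at *; omega
  have h2 : ¬ Tp x y := by simp only [Tp, Bt] at *; omega
  have h3 : ¬ Lf x y := by simp only [Lf, Bt] at *; omega
  simp [ring2, loc, h1, h2, h3]

theorem measure_nxt {n : ℤ} (hn : 1 ≤ n) {P : ℤ × ℤ} (hP : Vtx n P) :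
    0 ≤ ring2 n P ∧ 0 ≤ loc n P ∧
    ((ring2 n (nxt n P) = ring2 n P ∧ loc n (nxt n P) = loc n P + 1) ∨
      ring2 n (nxt n P) = ring2 n P + 2 * n) := by
  obtain ⟨x, y⟩ := P
  rcases hP with h | h | h | h
  · rw [nxt_Rg h]
    simp only at h ⊢
    obtain ⟨e1, e2⟩ := m_Rg h
    rw [e1, e2]
    by_cases h' : Rg n x (y + 1)
    · obtain ⟨e3, e4⟩ := m_Rg h'
      rw [e3, e4]
      simp only [Rg] at h
      omega
    · have h'' : Tp x (y + 1) := by simp only [Rg, Tp] at *; omega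
      obtain ⟨e3, e4⟩ := m_Tp (n := n) h''
      rw [e3, e4]
      simp only [Rg, Tp] at *
      omega
  · rw [nxt_Tp h]
    simp only at h ⊢
    obtain ⟨e1, e2⟩ := m_Tp (n := n) h
    rw [e1, e2]
    by_cases h' : Tp (x - 1) y
    · obtain ⟨e3, e4⟩ := m_Tp (n := n) h'
      rw [e3, e4]
      simp only [Tp] at h
      omega
    · have h'' : Lf (x - 1) y := by simp only [Lf, Tp] at *; omega
      obtain ⟨e3, e4⟩ := m_Lf hn h''
      rw [e3, e4]
      simp only [Lf, Tp] at *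
      omega
  · rw [nxt_Lf hn h]
    simp only at h ⊢
    obtain ⟨e1, e2⟩ := m_Lf hn h
    rw [e1, e2]
    by_cases h' : Lf x (y - 1)
    · obtain ⟨e3, e4⟩ := m_Lf hn h'
      rw [e3, e4]
      simp only [Lf] at h
      omega
    · have h'' : Bt n x (y - 1) := by simp only [Lf, Bt] at *; omega
      obtain ⟨e3, e4⟩ := m_Bt hn h''
      rw [e3, e4]
      simp only [Lf, Bt] at *
      omega
  · rw [nxt_Bt hn h]
    simp only at h ⊢
    obtain ⟨e1, e2⟩ := m_Bt hn h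
    rw [e1, e2]
    by_cases h' : Bt n (x + 1) y
    · obtain ⟨e3, e4⟩ := m_Bt hn h'
      rw [e3, e4]
      simp only [Bt] at h
      omega
    · have h'' : Rg n (x + 1) y := by simp only [Rg, Bt] at *; omega
      obtain ⟨e3, e4⟩ := m_Rg h''
      rw [e3, e4]
      simp only [Rg, Bt] at *
      omega

/-- the arms -/
def arm (n : ℤ) (k : ℕ) (m : ℕ) : ℤ × ℤ := (nxt n)^[m] (1 + 2 * (k : ℤ), 0)

theorem arm_zero (n : ℤ) (k : ℕ) : arm n k 0 = (1 + 2 * (k : ℤ), 0) := rfl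

theorem arm_succ (n : ℤ) (k m : ℕ) : arm n k (m + 1) = nxt n (arm n k m) := by
  unfold arm
  rw [Function.iterate_succ_apply']

theorem Vtx_start {n : ℤ} {k : ℕ} (hk : (k : ℤ) < n) : Vtx n (1 + 2 * (k : ℤ), 0) := by
  unfold Vtx Rg Tp Lf Bt
  simp only
  omega

theorem Vtx_arm {n : ℤ} (hn : 1 ≤ n) {k : ℕ} (hk : (k : ℤ) < n) (m : ℕ) : Vtx n (arm n k m) := by
  induction m with
  | zero => exact Vtx_start hk
  | succ m ih => rw [arm_succ]; exact Vtx_nxt hn ih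

theorem arm_inj {n : ℤ} (hn : 1 ≤ n) {k k' : ℕ} (hk : (k : ℤ) < n) (hk' : (k' : ℤ) < n) :
    ∀ {m m' : ℕ}, arm n k m = arm n k' m' → k = k' ∧ m = m' := by
  intro m
  induction m with
  | zero =>
    intro m' h
    cases m' with
    | zero =>
      rw [arm_zero, arm_zero, Prod.mk.injEq] at h
      exact ⟨by omega, rfl⟩
    | succ m' =>
      rw [arm_succ, arm_zero] at h
      exact absurd h.symm (nxt_ne_start hn (Vtx_arm hn hk' m') (by omega) hk)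
  | succ m ih =>
    intro m' h
    cases m' with
    | zero =>
      rw [arm_succ, arm_zero] at h
      exact absurd h (nxt_ne_start hn (Vtx_arm hn hk m) (by omega) hk')
    | succ m' =>
      rw [arm_succ, arm_succ] at h
      have := ih (nxt_inj hn (Vtx_arm hn hk m) (Vtx_arm hn hk' m') h)
      exact ⟨this.1, by omega⟩

theorem exists_arm {n : ℤ} (hn : 1 ≤ n) : ∀ (a b : ℕ) {P : ℤ × ℤ}, Vtx n P →
    ring2 n P ≤ a → loc n P ≤ b → ∃ k m : ℕ, (k : ℤ) < n ∧ P = arm n k m := by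
  intro a
  induction a using Nat.strong_induction_on with
  | _ a iha =>
    intro b
    induction b with
    | zero =>
      intro P hP ha hb
      rcases exists_pred hn hP with ⟨k, hk0, hk1, rfl⟩ | ⟨Q, hQ, hQP⟩
      · refine ⟨k.toNat, 0, by omega, ?_⟩
        rw [arm_zero, Prod.mk.injEq]
        exact ⟨by omega, rfl⟩
      · obtain ⟨h1, h2, h3⟩ := measure_nxt hn hQ
        rw [hQP] at h3
        rcases h3 with h3 | h3
        · omega
        · obtain ⟨k, m, hk, hm⟩ := iha (ring2 n Q).toNat (by omega) (loc n Q).toNat hQ (by omega)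
            (by omega)
          exact ⟨k, m + 1, hk, by rw [arm_succ, ← hm, hQP]⟩
    | succ b ihb =>
      intro P hP ha hb
      rcases exists_pred hn hP with ⟨k, hk0, hk1, rfl⟩ | ⟨Q, hQ, hQP⟩
      · refine ⟨k.toNat, 0, by omega, ?_⟩
        rw [arm_zero, Prod.mk.injEq]
        exact ⟨by omega, rfl⟩
      · obtain ⟨h1, h2, h3⟩ := measure_nxt hn hQ
        rw [hQP] at h3
        rcases h3 with h3 | h3
        · obtain ⟨k, m, hk, hm⟩ := ihb hQ (by omega) (by omega)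
          exact ⟨k, m + 1, hk, by rw [arm_succ, ← hm, hQP]⟩
        · obtain ⟨k, m, hk, hm⟩ := iha (ring2 n Q).toNat (by omega) (loc n Q).toNat hQ (by omega)
            (by omega)
          exact ⟨k, m + 1, hk, by rw [arm_succ, ← hm, hQP]⟩

theorem exists_arm' {n : ℤ} (hn : 1 ≤ n) {P : ℤ × ℤ} (hP : Vtx n P) :
    ∃ k m : ℕ, (k : ℤ) < n ∧ P = arm n k m :=
  exists_arm hn (ring2 n P).toNat (loc n P).toNat hP (by have := measure_nxt hn hP; omega)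
    (by have := measure_nxt hn hP; omega)

/-- a horizontal edge from `(x,y)` to `(x+1,y)` is used -/
def hE (n x y : ℤ) : Prop := Bt n x y ∨ Tp (x + 1) y
/-- a vertical edge from `(x,y)` to `(x,y+1)` is used -/
def vE (n x y : ℤ) : Prop := Rg n x y ∨ Lf x (y + 1)

instance (n x y : ℤ) : Decidable (hE n x y) := by unfold hE; infer_instance
instance (n x y : ℤ) : Decidable (vE n x y) := by unfold vE; infer_instance

/-- every even face has exactly one used side -/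
theorem face_unique {n : ℤ} (hn : 1 ≤ n) {i k : ℤ} (h : (i + k) % 2 = 0) :
    (hE n i k ∧ ¬ vE n (i + 1) k ∧ ¬ hE n i (k + 1) ∧ ¬ vE n i k) ∨
    (¬ hE n i k ∧ vE n (i + 1) k ∧ ¬ hE n i (k + 1) ∧ ¬ vE n i k) ∨
    (¬ hE n i k ∧ ¬ vE n (i + 1) k ∧ hE n i (k + 1) ∧ ¬ vE n i k) ∨
    (¬ hE n i k ∧ ¬ vE n (i + 1) k ∧ ¬ hE n i (k + 1) ∧ vE n i k) := by
  have hpar : (i % 2 = 0 ∧ k % 2 = 0) ∨ (i % 2 = 1 ∧ k % 2 = 1) := by omega
  rcases hpar with ⟨hi, hk⟩ | ⟨hi, hk⟩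
  · have e1 : hE n i k ↔ (0 ≤ k ∧ -k ≤ i ∧ i ≤ k) := by
      simp only [hE, Bt, Tp]; omega
    have e2 : vE n (i + 1) k ↔ ((2 ≤ i ∧ i ≤ 2 * n - 2 ∧ 0 ≤ k ∧ k ≤ i - 1) ∨
        (2 * n ≤ i ∧ 2 * n - i - 1 ≤ k ∧ k ≤ i - 1)) := by
      simp only [vE, Rg, Lf]; omega
    have e3 : hE n i (k + 1) ↔ (k ≤ -2 ∧ k + 2 ≤ i ∧ i ≤ 2 * n - 2 - k) := by
      simp only [hE, Bt, Tp]; omega
    have e4 : vE n i k ↔ (i ≤ 0 ∧ i ≤ k + 1 ∧ k + 1 ≤ -i) := by
      simp only [vE, Rg, Lf]; omega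
    rw [e1, e2, e3, e4]
    omega
  · have e1 : hE n i k ↔ (k ≤ -1 ∧ k + 1 ≤ i ∧ i ≤ 2 * n - 1 - k) := by
      simp only [hE, Bt, Tp]; omega
    have e2 : vE n (i + 1) k ↔ (i + 1 ≤ 0 ∧ i ≤ k ∧ k + 1 ≤ -i - 1) := by
      simp only [vE, Rg, Lf]; omega
    have e3 : hE n i (k + 1) ↔ (0 ≤ k + 1 ∧ -k ≤ i + 1 ∧ i ≤ k + 1) := by
      simp only [hE, Bt, Tp]; omega
    have e4 : vE n i k ↔ ((3 ≤ i ∧ i ≤ 2 * n - 1 ∧ 0 ≤ k ∧ k ≤ i - 2) ∨
        (2 * n + 1 ≤ i ∧ 2 * n - i ≤ k ∧ k ≤ i - 2)) := by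
      simp only [vE, Rg, Lf]; omega
    rw [e1, e2, e3, e4]
    omega

theorem stepR {n : ℤ} (hn : 1 ≤ n) (c : ℕ) : ∀ {P : ℤ × ℤ}, Rg n P.1 P.2 → P.1 - P.2 ≤ c →
    ∃ m, Tp ((nxt n)^[m] P).1 ((nxt n)^[m] P).2 := by
  induction c with
  | zero =>
    intro P h hc
    exfalso
    simp only [Rg] at h
    omega
  | succ c ih =>
    rintro ⟨x, y⟩ h hc
    by_cases h' : Rg n x (y + 1)
    · obtain ⟨m, hm⟩ := ih (P := (x, y + 1)) h' (by simp only at hc ⊢; omega)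
      refine ⟨m + 1, ?_⟩
      rw [Function.iterate_succ_apply, nxt_Rg h]
      exact hm
    · refine ⟨1, ?_⟩
      rw [Function.iterate_one, nxt_Rg h]
      simp only [Rg, Tp] at *
      omega

theorem stepT {n : ℤ} (c : ℕ) : ∀ {P : ℤ × ℤ}, Tp P.1 P.2 → P.1 + P.2 ≤ c →
    ∃ m, Lf ((nxt n)^[m] P).1 ((nxt n)^[m] P).2 := by
  induction c with
  | zero =>
    intro P h hc
    exfalso
    simp only [Tp] at h
    omega
  | succ c ih =>
    rintro ⟨x, y⟩ h hc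
    by_cases h' : Tp (x - 1) y
    · obtain ⟨m, hm⟩ := ih (P := (x - 1, y)) h' (by simp only at hc ⊢; omega)
      refine ⟨m + 1, ?_⟩
      rw [Function.iterate_succ_apply, nxt_Tp h]
      exact hm
    · refine ⟨1, ?_⟩
      rw [Function.iterate_one, nxt_Tp h]
      simp only [Lf, Tp] at *
      omega

theorem stepL {n : ℤ} (hn : 1 ≤ n) (c : ℕ) : ∀ {P : ℤ × ℤ}, Lf P.1 P.2 → P.2 - P.1 + 1 ≤ c →
    ∃ m, Bt n ((nxt n)^[m] P).1 ((nxt n)^[m] P).2 := by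
  induction c with
  | zero =>
    intro P h hc
    exfalso
    simp only [Lf] at h
    omega
  | succ c ih =>
    rintro ⟨x, y⟩ h hc
    by_cases h' : Lf x (y - 1)
    · obtain ⟨m, hm⟩ := ih (P := (x, y - 1)) h' (by simp only at hc ⊢; omega)
      refine ⟨m + 1, ?_⟩
      rw [Function.iterate_succ_apply, nxt_Lf hn h]
      exact hm
    · refine ⟨1, ?_⟩
      rw [Function.iterate_one, nxt_Lf hn h]
      simp only [Lf, Bt] at *
      omega

theorem stepB {n : ℤ} (hn : 1 ≤ n) (c : ℕ) : ∀ {P : ℤ × ℤ}, Bt n P.1 P.2 →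
    2 * n - P.2 - P.1 ≤ c → ∃ m, Rg n ((nxt n)^[m] P).1 ((nxt n)^[m] P).2 := by
  induction c with
  | zero =>
    intro P h hc
    exfalso
    simp only [Bt] at h
    omega
  | succ c ih =>
    rintro ⟨x, y⟩ h hc
    by_cases h' : Bt n (x + 1) y
    · obtain ⟨m, hm⟩ := ih (P := (x + 1, y)) h' (by simp only at hc ⊢; omega)
      refine ⟨m + 1, ?_⟩
      rw [Function.iterate_succ_apply, nxt_Bt hn h]
      exact hm
    · refine ⟨1, ?_⟩
      rw [Function.iterate_one, nxt_Bt hn h]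
      simp only [Rg, Bt] at *
      omega

theorem visits {n : ℤ} (hn : 1 ≤ n) {k : ℕ} (hk : (k : ℤ) < n) (m : ℕ) :
    (∃ m' ≥ m, Rg n (arm n k m').1 (arm n k m').2) ∧ (∃ m' ≥ m, Tp (arm n k m').1 (arm n k m').2) ∧
    (∃ m' ≥ m, Lf (arm n k m').1 (arm n k m').2) ∧
    (∃ m' ≥ m, Bt n (arm n k m').1 (arm n k m').2) := by
  have it : ∀ a b, (nxt n)^[a] (arm n k b) = arm n k (a + b) := by
    intro a b
    unfold arm
    rw [Function.iterate_add_apply]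
  have sR : ∀ a, Rg n (arm n k a).1 (arm n k a).2 → ∃ b ≥ a, Tp (arm n k b).1 (arm n k b).2 := by
    intro a h
    obtain ⟨b, hb⟩ := stepR hn ((arm n k a).1 - (arm n k a).2).toNat h (by omega)
    rw [it] at hb
    exact ⟨b + a, by omega, hb⟩
  have sT : ∀ a, Tp (arm n k a).1 (arm n k a).2 → ∃ b ≥ a, Lf (arm n k b).1 (arm n k b).2 := by
    intro a h
    obtain ⟨b, hb⟩ := stepT (n := n) ((arm n k a).1 + (arm n k a).2).toNat h (by omega)
    rw [it] at hb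
    exact ⟨b + a, by omega, hb⟩
  have sL : ∀ a, Lf (arm n k a).1 (arm n k a).2 → ∃ b ≥ a, Bt n (arm n k b).1 (arm n k b).2 := by
    intro a h
    obtain ⟨b, hb⟩ := stepL hn ((arm n k a).2 - (arm n k a).1 + 1).toNat h (by omega)
    rw [it] at hb
    exact ⟨b + a, by omega, hb⟩
  have sB : ∀ a, Bt n (arm n k a).1 (arm n k a).2 → ∃ b ≥ a, Rg n (arm n k b).1 (arm n k b).2 := by
    intro a h
    obtain ⟨b, hb⟩ := stepB hn (2 * n - (arm n k a).2 - (arm n k a).1).toNat h (by omega)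
    rw [it] at hb
    exact ⟨b + a, by omega, hb⟩
  have hR : ∃ m' ≥ m, Rg n (arm n k m').1 (arm n k m').2 := by
    rcases Vtx_arm hn hk m with h | h | h | h
    · exact ⟨m, le_rfl, h⟩
    · obtain ⟨a, ha, h⟩ := sT m h
      obtain ⟨b, hb, h⟩ := sL a h
      obtain ⟨c, hc, h⟩ := sB b h
      exact ⟨c, by omega, h⟩
    · obtain ⟨b, hb, h⟩ := sL m h
      obtain ⟨c, hc, h⟩ := sB b h
      exact ⟨c, by omega, h⟩
    · obtain ⟨c, hc, h⟩ := sB m h
      exact ⟨c, by omega, h⟩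
  obtain ⟨a, ha, h1⟩ := hR
  obtain ⟨b, hb, h2⟩ := sR a h1
  obtain ⟨c, hc, h3⟩ := sT b h2
  obtain ⟨d, hd, h4⟩ := sL c h3
  exact ⟨⟨a, ha, h1⟩, ⟨b, by omega, h2⟩, ⟨c, by omega, h3⟩, ⟨d, by omega, h4⟩⟩

end Pool.Agent.H56.Spiral
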