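import Pool.Agent.H56.Spiral.Main

/-!
The number of arms is well defined.
-/

set_option autoImplicit false

namespace Pool.Agent.H56.Spiral

open Filter Topology Complex

theorem IsUnboundedSimpleCurve.isPreconnected {B : Set ℂ} (h : IsUnboundedSimpleCurve B) :
    IsPreconnected B := by
  rcases h.1 with ⟨⟨e⟩⟩ | ⟨⟨e⟩⟩
  · have h1 : Set.range (fun x : ℝ => (e x : ℂ)) = B := by
      ext z
      constructor
      · rintro ⟨x, rfl⟩
        exact (e x).2
      · intro hz
        exact ⟨e.symm ⟨z, hz⟩, by simp⟩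
    rw [← h1]
    exact isPreconnected_range (continuous_subtype_val.comp e.continuous)
  · have h1 : Set.range (fun x : Set.Ici (0 : ℝ) => (e x : ℂ)) = B := by
      ext z
      constructor
      · rintro ⟨x, rfl⟩
        exact (e x).2
      · intro hz
        exact ⟨e.symm ⟨z, hz⟩, by simp⟩
    rw [← h1]
    have : PreconnectedSpace (Set.Ici (0 : ℝ)) := Subtype.preconnectedSpace isPreconnected_Ici
    exact isPreconnected_range (continuous_subtype_val.comp e.continuous)

theorem IsUnboundedSimpleCurve.nonempty {B : Set ℂ} (h : IsUnboundedSimpleCurve B) :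
    B.Nonempty := by
  by_contra h0
  rw [Set.not_nonempty_iff_eq_empty] at h0
  apply h.2
  rw [h0]
  exact Bornology.isBounded_empty

theorem count_arms {n m : ℕ} (hn : 0 < n) {B : Fin m → Set ℂ}
    (hB : IsSpiralWithArms m (⋃ k : Fin n, armSet n k) B) : m = n := by
  obtain ⟨hB1, hB2, hB3⟩ := hB
  have hsub : ∀ j, ∃ k : Fin n, B j ⊆ armSet n k := by
    intro j
    obtain ⟨x, hx⟩ := (hB1 j).nonempty
    have hxU : x ∈ ⋃ k : Fin n, armSet n k := by
      rw [hB3]
      exact Set.mem_iUnion.2 ⟨j, hx⟩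
    obtain ⟨k, hk⟩ := Set.mem_iUnion.1 hxU
    refine ⟨k, ?_⟩
    have hC : IsClosed (⋃ l ∈ {l : Fin n | l ≠ k}, armSet n l) :=
      Set.Finite.isClosed_biUnion (Set.toFinite _) (fun l _ => (armSet_curve hn l).1)
    have hcov : B j ⊆ armSet n k ∪ ⋃ l ∈ {l : Fin n | l ≠ k}, armSet n l := by
      intro y hy
      have hyU : y ∈ ⋃ k : Fin n, armSet n k := by
        rw [hB3]
        exact Set.mem_iUnion.2 ⟨j, hy⟩
      obtain ⟨l, hl⟩ := Set.mem_iUnion.1 hyU
      by_cases hlk : l = k
      · left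
        rw [← hlk]
        exact hl
      · right
        exact Set.mem_iUnion₂.2 ⟨l, hlk, hl⟩
    by_contra hnot
    obtain ⟨y, hy, hyk⟩ := Set.not_subset.1 hnot
    have hyC : y ∈ ⋃ l ∈ {l : Fin n | l ≠ k}, armSet n l := by
      rcases hcov hy with h | h
      · exact absurd h hyk
      · exact h
    obtain ⟨w, _, hw1, hw2⟩ := isPreconnected_closed_iff.1 (hB1 j).isPreconnected _ _
      (armSet_curve hn k).1 hC hcov ⟨x, hx, hk⟩ ⟨y, hy, hyC⟩
    obtain ⟨l, hl, hwl⟩ := Set.mem_iUnion₂.1 hw2
    exact Set.disjoint_left.1 (armSet_disjoint hn l k hl) hwl hw1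
  choose K hK using hsub
  have hinj : Function.Injective K := by
    intro i j hij
    by_contra hne
    have hpre : ∀ i', K i' = K i → (∀ R : ℝ, ∃ t : Set.Ici (0 : ℝ), R < t ∧ gam n (K i) t ∈ B i') ∧
        ((fun t : Set.Ici (0 : ℝ) => gam n (K i) t) ⁻¹' (B i')).OrdConnected := by
      intro i' hi'
      constructor
      · intro R
        by_contra hR
        push Not at hR
        apply (hB1 i').2
        have h1 : IsCompact ((fun t => gam n (K i) t) '' Set.Icc 0 R) :=
          isCompact_Icc.image_of_continuousOn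
            ((continuousOn_gam n (K i)).mono (fun t ht => ht.1))
        refine h1.isBounded.subset ?_
        intro z hz
        have hz2 := hK i' hz
        rw [hi'] at hz2
        obtain ⟨t, ht, rfl⟩ := hz2
        refine ⟨t, ⟨ht, ?_⟩, rfl⟩
        by_contra hlt
        exact hR ⟨t, ht⟩ (not_le.1 hlt) hz
      · apply IsPreconnected.ordConnected
        apply (hB1 i').isPreconnected.preimage_of_isClosedMap (gam_emb hn (K i)).injective
          (gam_emb hn (K i)).isClosedMap
        rw [range_gam, ← hi']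
        exact hK i'
    obtain ⟨u1, o1⟩ := hpre i rfl
    obtain ⟨u2, _⟩ := hpre j hij.symm
    obtain ⟨t1, _, h1⟩ := u1 0
    obtain ⟨t2, l2, h2⟩ := u2 t1
    obtain ⟨t3, l3, h3⟩ := u1 t2
    have h4 : gam n (K i) t2 ∈ B i :=
      o1.out h1 h3 ⟨(Subtype.coe_lt_coe.1 l2).le, (Subtype.coe_lt_coe.1 l3).le⟩
    exact Set.disjoint_left.1 (hB2 i j hne) h4 h2
  have hsurj : Function.Surjective K := by
    intro k
    obtain ⟨x, hx⟩ := (armSet_curve hn k).2.nonempty
    have hxU : x ∈ ⋃ j, B j := by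
      rw [← hB3]
      exact Set.mem_iUnion.2 ⟨k, hx⟩
    obtain ⟨j, hj⟩ := Set.mem_iUnion.1 hxU
    refine ⟨j, ?_⟩
    by_contra hne
    exact Set.disjoint_left.1 (armSet_disjoint hn _ _ hne) (hK j hj) hx
  have := Fintype.card_of_bijective (f := K) ⟨hinj, hsurj⟩
  simpa using this

end Pool.Agent.H56.Spiral
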