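import Mathlib

/-!
Polygonal curves through sequences of points, and their polar angle.
-/

set_option autoImplicit false

namespace Pool.Agent.H56.Spiral

open Filter Topology

theorem locallyFinite_Icc : LocallyFinite (fun m : ℕ => Set.Icc (m : ℝ) (m + 1)) := by
  intro x
  refine ⟨Set.Iio (x + 1), Iio_mem_nhds (by linarith), ?_⟩
  refine (Set.finite_lt_nat (⌈x + 1⌉₊)).subset ?_
  rintro m ⟨y, ⟨hy1, _⟩, hy2⟩
  simp only [Set.mem_Iio] at hy2
  have h1 : (m : ℝ) < x + 1 := lt_of_le_of_lt hy1 hy2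
  have h2 : (m : ℝ) < (⌈x + 1⌉₊ : ℝ) := lt_of_lt_of_le h1 (Nat.le_ceil _)
  exact_mod_cast h2

theorem glue {X : Type*} [TopologicalSpace X] (F : ℕ → ℝ → X)
    (hc : ∀ m : ℕ, ContinuousOn (F m) (Set.Icc (m : ℝ) (m + 1)))
    (hm : ∀ m : ℕ, F m (m + 1) = F (m + 1) (m + 1)) :
    ContinuousOn (fun t => F ⌊t⌋₊ t) (Set.Ici (0 : ℝ)) := by
  have h1 : ContinuousOn (fun t => F ⌊t⌋₊ t) (⋃ m : ℕ, Set.Icc (m : ℝ) (m + 1)) := by
    apply locallyFinite_Icc.continuousOn_iUnion (fun m => isClosed_Icc)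
    intro m
    refine (hc m).congr ?_
    intro t ht
    rcases eq_or_lt_of_le ht.2 with h | h
    · have e : ⌊(m : ℝ) + 1⌋₊ = m + 1 := by exact_mod_cast Nat.floor_natCast (m + 1)
      simp only [h, e]
      exact (hm m).symm
    · have e : ⌊t⌋₊ = m := (Nat.floor_eq_iff (le_trans (Nat.cast_nonneg m) ht.1)).2 ⟨ht.1, h⟩
      simp only [e]
  refine h1.mono ?_
  intro t ht
  rw [Set.mem_iUnion]
  exact ⟨⌊t⌋₊, Nat.floor_le ht, (Nat.lt_floor_add_one t).le⟩

/-- the polygonal curve through `w 0, w 1, ...` -/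
noncomputable def pl (w : ℕ → ℂ) (t : ℝ) : ℂ :=
  w ⌊t⌋₊ + ((t - ⌊t⌋₊ : ℝ) : ℂ) * (w (⌊t⌋₊ + 1) - w ⌊t⌋₊)

theorem continuousOn_pl (w : ℕ → ℂ) : ContinuousOn (pl w) (Set.Ici (0 : ℝ)) := by
  have := glue (fun m t => w m + ((t - m : ℝ) : ℂ) * (w (m + 1) - w m)) (fun m => by
    apply Continuous.continuousOn
    fun_prop) (fun m => by
      push_cast
      ring)
  exact this

theorem image_pl (w : ℕ → ℂ) : pl w '' Set.Ici (0 : ℝ) = ⋃ m : ℕ, segment ℝ (w m) (w (m + 1)) := by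
  ext z
  simp only [Set.mem_image, Set.mem_Ici, Set.mem_iUnion]
  constructor
  · rintro ⟨t, ht, rfl⟩
    refine ⟨⌊t⌋₊, ?_⟩
    rw [segment_eq_image']
    refine ⟨t - ⌊t⌋₊, ⟨by linarith [Nat.floor_le ht], by linarith [Nat.lt_floor_add_one t]⟩, ?_⟩
    simp [pl, Complex.real_smul]
  · rintro ⟨m, hm⟩
    rw [segment_eq_image'] at hm
    obtain ⟨s, ⟨hs0, hs1⟩, rfl⟩ := hm
    rcases eq_or_lt_of_le hs1 with h | h
    · refine ⟨(m : ℝ) + 1, by positivity, ?_⟩
      have e : ⌊(m : ℝ) + 1⌋₊ = m + 1 := by exact_mod_cast Nat.floor_natCast (m + 1)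
      simp [pl, e, h]
    · refine ⟨(m : ℝ) + s, by positivity, ?_⟩
      have e : ⌊(m : ℝ) + s⌋₊ = m := by
        rw [Nat.floor_eq_iff (by positivity)]
        constructor <;> linarith
      simp [pl, e, Complex.real_smul]

/-- accumulated angle -/
noncomputable def ang (z : ℕ → ℂ) : ℕ → ℝ
  | 0 => (z 0).arg
  | m + 1 => ang z m + (z (m + 1) / z m).arg

theorem polar_ang {z : ℕ → ℂ} (hz : ∀ m, z m ≠ 0) (m : ℕ) :
    z m = (‖z m‖ : ℂ) * Complex.exp (ang z m * Complex.I) := by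
  induction m with
  | zero => exact (Complex.norm_mul_exp_arg_mul_I (z 0)).symm
  | succ m ih =>
    have h1 : z (m + 1) = z m * (z (m + 1) / z m) := by
      field_simp [hz m]
    have h2 := Complex.norm_mul_exp_arg_mul_I (z (m + 1) / z m)
    have h3 : ‖z (m + 1)‖ = ‖z m‖ * ‖z (m + 1) / z m‖ := by
      rw [← norm_mul, ← h1]
    rw [h3]
    simp only [ang]
    push_cast
    rw [add_mul, Complex.exp_add]
    calc z (m + 1) = z m * (z (m + 1) / z m) := h1
      _ = (‖z m‖ * Complex.exp (ang z m * Complex.I)) *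
          (‖z (m + 1) / z m‖ * Complex.exp ((z (m + 1) / z m).arg * Complex.I)) := by
        rw [← ih, h2]
      _ = _ := by ring

/-- ratio along the segment -/
noncomputable def rat (z : ℕ → ℂ) (m : ℕ) (t : ℝ) : ℂ :=
  1 + ((t - m : ℝ) : ℂ) * (z (m + 1) / z m - 1)

/-- continuous angle -/
noncomputable def angle (z : ℕ → ℂ) (t : ℝ) : ℝ := ang z ⌊t⌋₊ + (rat z ⌊t⌋₊ t).arg

theorem rat_im {z : ℕ → ℂ} (m : ℕ) (t : ℝ) :
    (rat z m t).im = (t - m) * (z (m + 1) / z m).im := by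
  simp only [rat, Complex.add_im, Complex.one_im, Complex.im_ofReal_mul,
    Complex.sub_im]
  ring

theorem rat_slit {z : ℕ → ℂ} (hp : ∀ m, 0 < (z (m + 1) / z m).im) (m : ℕ) {t : ℝ}
    (ht : (m : ℝ) ≤ t) : rat z m t ∈ Complex.slitPlane := by
  rcases eq_or_lt_of_le ht with h | h
  · rw [← h]
    simp [rat]
  · rw [Complex.mem_slitPlane_iff]
    right
    rw [rat_im]
    have := hp m
    have h2 : 0 < t - m := by linarith
    positivity

theorem continuousOn_angle {z : ℕ → ℂ} (hp : ∀ m, 0 < (z (m + 1) / z m).im) :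
    ContinuousOn (angle z) (Set.Ici (0 : ℝ)) := by
  refine glue (fun m t => ang z m + (rat z m t).arg) ?_ ?_
  · intro m
    refine continuousOn_const.add ?_
    intro t ht
    have h1 : ContinuousAt Complex.arg (rat z m t) :=
      Complex.continuousAt_arg (rat_slit hp m ht.1)
    have h2 : Continuous (rat z m) := by
      unfold rat
      fun_prop
    exact (ContinuousAt.comp (f := rat z m) h1 h2.continuousAt).continuousWithinAt
  · intro m
    have e1 : rat z m (m + 1) = z (m + 1) / z m := by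
      simp [rat]
    have e2 : rat z (m + 1) (m + 1) = 1 := by
      simp [rat]
    simp only [e1, e2, ang, Complex.arg_one, add_zero]

theorem polar_pl {z : ℕ → ℂ} (hz : ∀ m, z m ≠ 0) (t : ℝ) :
    pl z t = (‖pl z t‖ : ℂ) * Complex.exp (angle z t * Complex.I) := by
  have h1 : pl z t = z ⌊t⌋₊ * rat z ⌊t⌋₊ t := by
    simp only [pl, rat]
    field_simp [hz]
  have h2 : ‖pl z t‖ = ‖z ⌊t⌋₊‖ * ‖rat z ⌊t⌋₊ t‖ := by rw [h1, norm_mul]
  have h3 := polar_ang hz ⌊t⌋₊
  have h4 := Complex.norm_mul_exp_arg_mul_I (rat z ⌊t⌋₊ t)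
  rw [h2]
  simp only [angle]
  push_cast
  rw [add_mul, Complex.exp_add]
  calc pl z t = z ⌊t⌋₊ * rat z ⌊t⌋₊ t := h1
    _ = (‖z ⌊t⌋₊‖ * Complex.exp (ang z ⌊t⌋₊ * Complex.I)) *
        (‖rat z ⌊t⌋₊ t‖ * Complex.exp ((rat z ⌊t⌋₊ t).arg * Complex.I)) := by
      rw [← h3, h4]
    _ = _ := by ring

theorem tendsto_ang {z : ℕ → ℂ} (hz : ∀ m, z m ≠ 0) (hp : ∀ m, 0 < (z (m + 1) / z m).im)
    (h1 : ∃ᶠ m in atTop, 0 ≤ (z m).re) (h2 : ∃ᶠ m in atTop, (z m).re ≤ 0)
    (h3 : ∃ᶠ m in atTop, 0 ≤ (z m).im) (h4 : ∃ᶠ m in atTop, (z m).im ≤ 0) :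
    Tendsto (ang z) atTop atTop := by
  have hmono : Monotone (ang z) := by
    apply monotone_nat_of_le_succ
    intro m
    simp only [ang]
    have : 0 ≤ (z (m + 1) / z m).arg := Complex.arg_nonneg_iff.2 (hp m).le
    linarith
  rcases tendsto_atTop_of_monotone hmono with h | ⟨l, hl⟩
  · exact h
  exfalso
  have hre : ∀ m, (Complex.exp (ang z m * Complex.I)).re = (z m).re / ‖z m‖ := by
    intro m
    have h := polar_ang hz m
    have hn : ‖z m‖ ≠ 0 := norm_ne_zero_iff.2 (hz m)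
    have := congrArg Complex.re h
    rw [Complex.re_ofReal_mul] at this
    rw [eq_div_iff hn, this]
    ring
  have him : ∀ m, (Complex.exp (ang z m * Complex.I)).im = (z m).im / ‖z m‖ := by
    intro m
    have h := polar_ang hz m
    have hn : ‖z m‖ ≠ 0 := norm_ne_zero_iff.2 (hz m)
    have := congrArg Complex.im h
    rw [Complex.im_ofReal_mul] at this
    rw [eq_div_iff hn, this]
    ring
  have hlim : Tendsto (fun m => Complex.exp (ang z m * Complex.I)) atTop
      (𝓝 (Complex.exp (l * Complex.I))) := by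
    have hcont : Continuous (fun x : ℝ => Complex.exp (x * Complex.I)) := by fun_prop
    exact (hcont.tendsto l).comp hl
  have hlre := (Complex.continuous_re.tendsto _).comp hlim
  have hlim' := (Complex.continuous_im.tendsto _).comp hlim
  have a1 : 0 ≤ (Complex.exp (l * Complex.I)).re := by
    refine ge_of_tendsto_of_frequently hlre (h1.mono fun m hm => ?_)
    simp only [Function.comp_apply, hre]
    positivity
  have a2 : (Complex.exp (l * Complex.I)).re ≤ 0 := by
    refine le_of_tendsto_of_frequently hlre (h2.mono fun m hm => ?_)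
    simp only [Function.comp_apply, hre]
    exact div_nonpos_of_nonpos_of_nonneg hm (norm_nonneg _)
  have a3 : 0 ≤ (Complex.exp (l * Complex.I)).im := by
    refine ge_of_tendsto_of_frequently hlim' (h3.mono fun m hm => ?_)
    simp only [Function.comp_apply, him]
    positivity
  have a4 : (Complex.exp (l * Complex.I)).im ≤ 0 := by
    refine le_of_tendsto_of_frequently hlim' (h4.mono fun m hm => ?_)
    simp only [Function.comp_apply, him]
    exact div_nonpos_of_nonpos_of_nonneg hm (norm_nonneg _)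
  have : Complex.exp (l * Complex.I) = 0 := Complex.ext (le_antisymm a2 a1) (le_antisymm a4 a3)
  exact Complex.exp_ne_zero _ this

theorem tendsto_angle {z : ℕ → ℂ} (hp : ∀ m, 0 < (z (m + 1) / z m).im)
    (h : Tendsto (ang z) atTop atTop) : Tendsto (angle z) atTop atTop := by
  have h1 : Tendsto (fun t : ℝ => ang z ⌊t⌋₊) atTop atTop := h.comp tendsto_nat_floor_atTop
  refine tendsto_atTop_mono' atTop ?_ h1
  filter_upwards [Filter.eventually_ge_atTop (0 : ℝ)] with t ht
  simp only [angle]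
  have : 0 ≤ (rat z ⌊t⌋₊ t).arg := by
    rw [Complex.arg_nonneg_iff, rat_im]
    have h2 := Nat.floor_le ht
    have h3 := (hp ⌊t⌋₊).le
    have h4 : 0 ≤ t - ⌊t⌋₊ := by linarith
    positivity
  linarith

end Pool.Agent.H56.Spiral
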