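import Mathlib

/-!
Markings of the square tiling and spirals. The plane is the complex plane `ℂ`.
-/

set_option autoImplicit false

namespace Pool.Agent.H56.Spiral

open Filter

/-- The tiles of the square tiling: `tile (a, b)` is the closed unit square
`[a, a+1] × [b, b+1]`. The prototile is `tile (0, 0)`. -/
def tile (p : ℤ × ℤ) : Set ℂ :=
  {z | (p.1 : ℝ) ≤ z.re ∧ z.re ≤ p.1 + 1 ∧ (p.2 : ℝ) ≤ z.im ∧ z.im ≤ p.2 + 1}

/-- An arc: a homeomorphic image of `[0,1]`. -/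
def IsArc (a : Set ℂ) : Prop := Nonempty (unitInterval ≃ₜ a)

/-- A marking of the prototile: a finite set of arcs in the prototile. -/
def IsMarking (M : Set (Set ℂ)) : Prop := M.Finite ∧ ∀ a ∈ M, IsArc a ∧ a ⊆ tile (0, 0)

/-- A choice, for every tile, of an isometry of the plane taking the prototile onto the tile. -/
def IsPlacement (σ : ℤ × ℤ → ℂ ≃ᵢ ℂ) : Prop := ∀ p, σ p '' tile (0, 0) = tile p

/-- The union of the transported markings. -/
def marked (M : Set (Set ℂ)) (σ : ℤ × ℤ → ℂ ≃ᵢ ℂ) : Set ℂ := ⋃ p, ⋃ a ∈ M, σ p '' a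

/-- An unbounded simple curve: unbounded, and a homeomorphic image of `ℝ` or of `[0,∞)`. -/
def IsUnboundedSimpleCurve (A : Set ℂ) : Prop :=
  (Nonempty (ℝ ≃ₜ A) ∨ Nonempty (Set.Ici (0 : ℝ) ≃ₜ A)) ∧ ¬ Bornology.IsBounded A

/-- `U` is the union of the `n` pairwise disjoint unbounded simple curves `A k`. -/
def IsSpiralWithArms (n : ℕ) (U : Set ℂ) (A : Fin n → Set ℂ) : Prop :=
  (∀ k, IsUnboundedSimpleCurve (A k)) ∧ (∀ k l, k ≠ l → Disjoint (A k) (A l)) ∧ U = ⋃ k, A k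

/-- The curve `A` is a closed set that starts at a point and spirals out around `c` infinitely
often: it has an injective continuous parametrization
`c + ρ(t) exp(i θ(t))`, `t ≥ 0`, with `ρ > 0`, `θ` continuous, `ρ(t) → ∞` and `θ(t) → ∞`. -/
def SpiralsOutAround (c : ℂ) (A : Set ℂ) : Prop :=
  IsClosed A ∧ ∃ (γ : ℝ → ℂ) (ρ θ : ℝ → ℝ),
    ContinuousOn γ (Set.Ici 0) ∧ ContinuousOn θ (Set.Ici 0) ∧ Set.BijOn γ (Set.Ici 0) A ∧
    (∀ t, 0 ≤ t → 0 < ρ t ∧ γ t = c + ρ t * Complex.exp (θ t * Complex.I)) ∧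
    Tendsto ρ atTop atTop ∧ Tendsto θ atTop atTop

end Pool.Agent.H56.Spiral
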