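import Pool.Agent.H56.Spiral.Comb
import Pool.Agent.H56.Spiral.Curve
import Pool.Agent.H56.Spiral.Defs

/-!
Geometry of the n-armed spiral.
-/

set_option autoImplicit false

namespace Pool.Agent.H56.Spiral

open Filter Topology Complex

/-- lattice point as a complex number -/
noncomputable def g (P : ℤ × ℤ) : ℂ := (P.1 : ℂ) + (P.2 : ℂ) * I

@[simp] theorem g_re (P : ℤ × ℤ) : (g P).re = P.1 := by simp [g]
@[simp] theorem g_im (P : ℤ × ℤ) : (g P).im = P.2 := by simp [g]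

theorem disp {n : ℤ} (hn : 1 ≤ n) {P : ℤ × ℤ} (hP : Vtx n P) : ∃ dx dy : ℤ,
    nxt n P = (P.1 + dx, P.2 + dy) ∧
    ((Rg n P.1 P.2 ∧ dx = 0 ∧ dy = 1) ∨ (Tp P.1 P.2 ∧ dx = -1 ∧ dy = 0) ∨
      (Lf P.1 P.2 ∧ dx = 0 ∧ dy = -1) ∨ (Bt n P.1 P.2 ∧ dx = 1 ∧ dy = 0)) := by
  rcases hP with h | h | h | h
  · exact ⟨0, 1, by rw [nxt_Rg h]; simp, Or.inl ⟨h, rfl, rfl⟩⟩
  · exact ⟨-1, 0, by rw [nxt_Tp h]; simp [sub_eq_add_neg], Or.inr (Or.inl ⟨h, rfl, rfl⟩)⟩
  · exact ⟨0, -1, by rw [nxt_Lf hn h]; simp [sub_eq_add_neg],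
      Or.inr (Or.inr (Or.inl ⟨h, rfl, rfl⟩))⟩
  · exact ⟨1, 0, by rw [nxt_Bt hn h]; simp, Or.inr (Or.inr (Or.inr ⟨h, rfl, rfl⟩))⟩

theorem half_open_inj {n : ℤ} (hn : 1 ≤ n) {P Q : ℤ × ℤ} (hP : Vtx n P) (hQ : Vtx n Q)
    {α β : ℝ} (hα : 0 ≤ α) (hα1 : α < 1) (hβ : 0 ≤ β) (hβ1 : β < 1)
    (h : g P + (α : ℂ) * (g (nxt n P) - g P) = g Q + (β : ℂ) * (g (nxt n Q) - g Q)) :
    P = Q ∧ α = β := by
  obtain ⟨dx, dy, h1, h2⟩ := disp hn hP
  obtain ⟨dx', dy', h3, h4⟩ := disp hn hQ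
  obtain ⟨x, y⟩ := P
  obtain ⟨x', y'⟩ := Q
  have hre := congrArg Complex.re h
  have him := congrArg Complex.im h
  rw [h1, h3] at hre him
  simp only [add_re, add_im, re_ofReal_mul, im_ofReal_mul, sub_re, sub_im, g_re, g_im] at hre him
  push_cast at hre him
  have e1 : ((x - x' : ℤ) : ℝ) = β * dx' - α * dx := by push_cast; linarith
  have e2 : ((y - y' : ℤ) : ℝ) = β * dy' - α * dy := by push_cast; linarith
  clear hre him h h1 h3
  simp only at h2 h4
  rcases h2 with ⟨r1, rfl, rfl⟩ | ⟨r1, rfl, rfl⟩ | ⟨r1, rfl, rfl⟩ | ⟨r1, rfl, rfl⟩ <;>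
  rcases h4 with ⟨r2, rfl, rfl⟩ | ⟨r2, rfl, rfl⟩ | ⟨r2, rfl, rfl⟩ | ⟨r2, rfl, rfl⟩ <;>
  · push_cast at e1 e2
    have b1 : ((x - x' : ℤ) : ℝ) < 2 := by push_cast; linarith
    have b2 : (-2 : ℝ) < ((x - x' : ℤ) : ℝ) := by push_cast; linarith
    have b3 : ((y - y' : ℤ) : ℝ) < 2 := by push_cast; linarith
    have b4 : (-2 : ℝ) < ((y - y' : ℤ) : ℝ) := by push_cast; linarith
    have c1 : x - x' < 2 := by exact_mod_cast b1
    have c2 : -2 < x - x' := by exact_mod_cast b2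
    have c3 : y - y' < 2 := by exact_mod_cast b3
    have c4 : -2 < y - y' := by exact_mod_cast b4
    have f1 : x = x' - 1 ∨ x = x' ∨ x = x' + 1 := by omega
    have f2 : y = y' - 1 ∨ y = y' ∨ y = y' + 1 := by omega
    clear b1 b2 b3 b4 c1 c2 c3 c4
    rcases f1 with rfl | rfl | rfl <;> rcases f2 with rfl | rfl | rfl <;> push_cast at e1 e2 <;>
      first
      | (exfalso; linarith)
      | exact ⟨rfl, by linarith⟩
      | (exfalso; simp only [Rg, Tp, Lf, Bt] at r1 r2; omega)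

theorem affine_segment (A B x y : ℂ) :
    (fun z => A * z + B) '' segment ℝ x y = segment ℝ (A * x + B) (A * y + B) := by
  rw [segment_eq_image', segment_eq_image', Set.image_image]
  apply Set.image_congr
  intro t _
  simp only [Complex.real_smul]
  ring

/-- the similarity from the auxiliary lattice to the plane of the tiling -/
noncomputable def Phi (z : ℂ) : ℂ := ((1 + I) / 2) * z + 1 / 2

/-- the marked arc: the segment joining the midpoints of two adjacent sides -/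
noncomputable def arc0 : Set ℂ := segment ℝ (1 / 2) (1 + I / 2)

noncomputable def cI : Circle := ⟨I, by simp [Submonoid.unitSphere]⟩

noncomputable def cen : ℂ := (1 + I) / 2

noncomputable def place (d : ℕ) (p : ℤ × ℤ) : ℂ ≃ᵢ ℂ :=
  ((IsometryEquiv.subRight cen).trans (rotation (cI ^ d)).toIsometryEquiv).trans
    (IsometryEquiv.addRight (cen + g p))

theorem place_apply (d : ℕ) (p : ℤ × ℤ) (z : ℂ) : place d p z = I ^ d * (z - cen) + (cen + g p) := by
  have h : ((cI ^ d : Circle) : ℂ) = I ^ d := by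
    rw [Circle.coe_pow]
    rfl
  change rotation (cI ^ d) (z - cen) + (cen + g p) = _
  rw [rotation_apply, h]

theorem place_mem {d : ℕ} (hd : d < 4) (p : ℤ × ℤ) (z : ℂ) :
    place d p z ∈ tile p ↔ z ∈ tile (0, 0) := by
  rw [place_apply]
  simp only [tile, Set.mem_ofPred_eq]
  have hc1 : cen.re = 1 / 2 := by simp [cen]
  have hc2 : cen.im = 1 / 2 := by simp [cen]
  interval_cases d
  · simp only [pow_zero, one_mul, add_re, sub_re, add_im, sub_im, g_re, g_im, hc1, hc2]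
    push_cast
    constructor <;> rintro ⟨h1, h2, h3, h4⟩ <;> refine ⟨?_, ?_, ?_, ?_⟩ <;> linarith
  · simp only [pow_one, add_re, sub_re, add_im, sub_im, g_re, g_im, hc1, hc2, I_mul_re, I_mul_im]
    push_cast
    constructor <;> rintro ⟨h1, h2, h3, h4⟩ <;> refine ⟨?_, ?_, ?_, ?_⟩ <;> linarith
  · simp only [I_sq, neg_mul, one_mul, add_re, sub_re, add_im, sub_im, neg_re, neg_im, g_re, g_im,
      hc1, hc2]
    push_cast
    constructor <;> rintro ⟨h1, h2, h3, h4⟩ <;> refine ⟨?_, ?_, ?_, ?_⟩ <;> linarith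
  · simp only [I_pow_three, neg_mul, add_re, sub_re, add_im, sub_im, neg_re, neg_im, g_re, g_im,
      hc1, hc2, I_mul_re, I_mul_im]
    push_cast
    constructor <;> rintro ⟨h1, h2, h3, h4⟩ <;> refine ⟨?_, ?_, ?_, ?_⟩ <;> linarith

theorem place_image {d : ℕ} (hd : d < 4) (p : ℤ × ℤ) : place d p '' tile (0, 0) = tile p := by
  ext w
  constructor
  · rintro ⟨z, hz, rfl⟩
    exact (place_mem hd p z).2 hz
  · intro hw
    refine ⟨(place d p).symm w, ?_, by simp⟩
    rw [← place_mem hd p]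
    simpa using hw

/-- the direction chosen for the tile `p` -/
noncomputable def dirn (n : ℤ) (p : ℤ × ℤ) : ℕ :=
  if hE n (p.1 + p.2) (p.2 - p.1) then 0
  else if vE n (p.1 + p.2 + 1) (p.2 - p.1) then 1
  else if hE n (p.1 + p.2) (p.2 - p.1 + 1) then 2
  else 3

theorem dirn_lt (n : ℤ) (p : ℤ × ℤ) : dirn n p < 4 := by
  unfold dirn
  split_ifs <;> omega

theorem place_arc0 (p : ℤ × ℤ) :
    place 0 p '' arc0 = Phi '' segment ℝ (g (p.1 + p.2, p.2 - p.1)) (g (p.1 + p.2 + 1, p.2 - p.1)) ∧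
    place 1 p '' arc0 = Phi '' segment ℝ (g (p.1 + p.2 + 1, p.2 - p.1))
      (g (p.1 + p.2 + 1, p.2 - p.1 + 1)) ∧
    place 2 p '' arc0 = Phi '' segment ℝ (g (p.1 + p.2 + 1, p.2 - p.1 + 1))
      (g (p.1 + p.2, p.2 - p.1 + 1)) ∧
    place 3 p '' arc0 = Phi '' segment ℝ (g (p.1 + p.2, p.2 - p.1 + 1))
      (g (p.1 + p.2, p.2 - p.1)) := by
  have hp : ∀ d, (place d p : ℂ → ℂ) = fun z => I ^ d * z + (cen + g p - I ^ d * cen) := by
    intro d
    ext z
    rw [place_apply]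
    ring
  have hPhi : Phi = fun z => ((1 + I) / 2) * z + 1 / 2 := rfl
  have hI : I * I = -1 := I_mul_I
  refine ⟨?_, ?_, ?_, ?_⟩ <;>
  · rw [hp, arc0, affine_segment, hPhi, affine_segment]
    congr 1 <;>
    · simp only [g, cen]
      push_cast
      apply Complex.ext <;>
      · simp [pow_succ]
        try ring

/-- union of the used lattice edges -/
theorem edge_h {n : ℤ} (hn : 1 ≤ n) {x y : ℤ} (h : hE n x y) :
    ∃ p : ℤ × ℤ, place (dirn n p) p '' arc0 = Phi '' segment ℝ (g (x, y)) (g (x + 1, y)) := by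
  by_cases hpar : (x + y) % 2 = 0
  · refine ⟨((x - y) / 2, (x + y) / 2), ?_⟩
    have e1 : (x - y) / 2 + (x + y) / 2 = x := by omega
    have e2 : (x + y) / 2 - (x - y) / 2 = y := by omega
    have hd : dirn n ((x - y) / 2, (x + y) / 2) = 0 := by
      unfold dirn
      simp only [e1, e2, h, if_true]
    rw [hd, (place_arc0 _).1]
    simp only [e1, e2]
  · refine ⟨((x - (y - 1)) / 2, (x + (y - 1)) / 2), ?_⟩
    have e1 : (x - (y - 1)) / 2 + (x + (y - 1)) / 2 = x := by omega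
    have e2 : (x + (y - 1)) / 2 - (x - (y - 1)) / 2 = y - 1 := by omega
    have e3 : y - 1 + 1 = y := by omega
    have hf := face_unique hn (i := x) (k := y - 1) (by omega)
    rw [e3] at hf
    have hf' : ¬ hE n x (y - 1) ∧ ¬ vE n (x + 1) (y - 1) := by tauto
    have hd : dirn n ((x - (y - 1)) / 2, (x + (y - 1)) / 2) = 2 := by
      unfold dirn
      simp only [e1, e2, e3, h, hf'.1, hf'.2, if_true, if_false]
    rw [hd, (place_arc0 _).2.2.1]
    simp only [e1, e2, e3]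
    rw [segment_symm]

theorem edge_v {n : ℤ} (hn : 1 ≤ n) {x y : ℤ} (h : vE n x y) :
    ∃ p : ℤ × ℤ, place (dirn n p) p '' arc0 = Phi '' segment ℝ (g (x, y)) (g (x, y + 1)) := by
  by_cases hpar : (x + y) % 2 = 0
  · refine ⟨((x - y) / 2, (x + y) / 2), ?_⟩
    have e1 : (x - y) / 2 + (x + y) / 2 = x := by omega
    have e2 : (x + y) / 2 - (x - y) / 2 = y := by omega
    have hf := face_unique hn (i := x) (k := y) (by omega)
    have hf' : ¬ hE n x y ∧ ¬ vE n (x + 1) y ∧ ¬ hE n x (y + 1) := by tauto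
    have hd : dirn n ((x - y) / 2, (x + y) / 2) = 3 := by
      unfold dirn
      simp only [e1, e2, hf'.1, hf'.2.1, hf'.2.2, if_false]
    rw [hd, (place_arc0 _).2.2.2]
    simp only [e1, e2]
    rw [segment_symm]
  · refine ⟨(((x - 1) - y) / 2, ((x - 1) + y) / 2), ?_⟩
    have e1 : ((x - 1) - y) / 2 + ((x - 1) + y) / 2 = x - 1 := by omega
    have e2 : ((x - 1) + y) / 2 - ((x - 1) - y) / 2 = y := by omega
    have e3 : x - 1 + 1 = x := by omega
    have hf := face_unique hn (i := x - 1) (k := y) (by omega)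
    rw [e3] at hf
    have hf' : ¬ hE n (x - 1) y := by tauto
    have hd : dirn n (((x - 1) - y) / 2, ((x - 1) + y) / 2) = 1 := by
      unfold dirn
      simp only [e1, e2, e3, h, hf', if_true, if_false]
    rw [hd, (place_arc0 _).2.1]
    simp only [e1, e2, e3]

theorem seg_h {n : ℤ} (hn : 1 ≤ n) {x y : ℤ} (h : hE n x y) :
    ∃ P, Vtx n P ∧ segment ℝ (g (x, y)) (g (x + 1, y)) = segment ℝ (g P) (g (nxt n P)) := by
  rcases h with h | h
  · refine ⟨(x, y), Or.inr (Or.inr (Or.inr h)), ?_⟩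
    rw [nxt_Bt hn h]
  · refine ⟨(x + 1, y), Or.inr (Or.inl h), ?_⟩
    rw [nxt_Tp h, segment_symm]
    simp

theorem seg_v {n : ℤ} (hn : 1 ≤ n) {x y : ℤ} (h : vE n x y) :
    ∃ P, Vtx n P ∧ segment ℝ (g (x, y)) (g (x, y + 1)) = segment ℝ (g P) (g (nxt n P)) := by
  rcases h with h | h
  · refine ⟨(x, y), Or.inl h, ?_⟩
    rw [nxt_Rg h]
  · refine ⟨(x, y + 1), Or.inr (Or.inr (Or.inl h)), ?_⟩
    rw [nxt_Lf hn h, segment_symm]
    simp

/-- every transported arc is the image of a used edge -/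
theorem tile_edge {n : ℤ} (hn : 1 ≤ n) (p : ℤ × ℤ) :
    ∃ P, Vtx n P ∧ place (dirn n p) p '' arc0 = Phi '' segment ℝ (g P) (g (nxt n P)) := by
  have hf := face_unique hn (i := p.1 + p.2) (k := p.2 - p.1) (by omega)
  rcases hf with ⟨h1, h2, h3, h4⟩ | ⟨h1, h2, h3, h4⟩ | ⟨h1, h2, h3, h4⟩ | ⟨h1, h2, h3, h4⟩
  · have hd : dirn n p = 0 := by
      unfold dirn
      simp only [h1, if_true]
    obtain ⟨P, hP, e⟩ := seg_h hn h1
    refine ⟨P, hP, ?_⟩
    rw [hd, (place_arc0 p).1, e]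
  · have hd : dirn n p = 1 := by
      unfold dirn
      simp only [h1, h2, if_true, if_false]
    obtain ⟨P, hP, e⟩ := seg_v hn h2
    refine ⟨P, hP, ?_⟩
    rw [hd, (place_arc0 p).2.1, e]
  · have hd : dirn n p = 2 := by
      unfold dirn
      simp only [h1, h2, h3, if_true, if_false]
    obtain ⟨P, hP, e⟩ := seg_h hn h3
    refine ⟨P, hP, ?_⟩
    rw [hd, (place_arc0 p).2.2.1, segment_symm, e]
  · have hd : dirn n p = 3 := by
      unfold dirn
      simp only [h1, h2, h3, if_false]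
    obtain ⟨P, hP, e⟩ := seg_v hn h4
    refine ⟨P, hP, ?_⟩
    rw [hd, (place_arc0 p).2.2.2, segment_symm, e]

theorem vertex_edge {n : ℤ} (hn : 1 ≤ n) {P : ℤ × ℤ} (hP : Vtx n P) :
    ∃ p : ℤ × ℤ, place (dirn n p) p '' arc0 = Phi '' segment ℝ (g P) (g (nxt n P)) := by
  obtain ⟨x, y⟩ := P
  rcases hP with h | h | h | h
  · rw [nxt_Rg h]
    exact edge_v hn (Or.inl h)
  · rw [nxt_Tp h, segment_symm]
    have := edge_h hn (x := x - 1) (y := y) (Or.inr (by simpa using h))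
    simpa using this
  · rw [nxt_Lf hn h, segment_symm]
    have := edge_v hn (x := x) (y := y - 1) (Or.inr (by simpa using h))
    simpa using this
  · rw [nxt_Bt hn h]
    exact edge_h hn (Or.inl h)

theorem marked_eq {n : ℤ} (hn : 1 ≤ n) :
    marked {arc0} (fun p => place (dirn n p) p) =
      Phi '' ⋃ (P : ℤ × ℤ) (_ : Vtx n P), segment ℝ (g P) (g (nxt n P)) := by
  unfold marked
  simp only [Set.mem_singleton_iff, Set.iUnion_iUnion_eq_left, Set.image_iUnion]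
  apply Set.Subset.antisymm
  · apply Set.iUnion_subset
    intro p
    obtain ⟨P, hP, e⟩ := tile_edge hn p
    rw [e]
    exact Set.subset_iUnion₂_of_subset P hP (Set.Subset.refl _)
  · apply Set.iUnion₂_subset
    intro P hP
    obtain ⟨p, e⟩ := vertex_edge hn hP
    rw [← e]
    exact Set.subset_iUnion (fun p => (place (dirn n p) p : ℂ → ℂ) '' arc0) p

end Pool.Agent.H56.Spiral
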