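import Pool.Agent.H56.Spiral.Geom

/-!
The arms of the n-armed spiral.
-/

set_option autoImplicit false

namespace Pool.Agent.H56.Spiral

open Filter Topology Complex

/-! ### the marking -/

theorem isArc_arc0 : IsArc arc0 := by
  let f : unitInterval → ℂ := fun t => 1 / 2 + ((t : ℝ) : ℂ) * ((1 + I / 2) - 1 / 2)
  have hf : Continuous f := by fun_prop
  have hinj : Function.Injective f := by
    intro s t h
    have him := congrArg Complex.im h
    simp [f] at him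
    exact Subtype.ext (by linarith)
  have hrange : Set.range f = arc0 := by
    rw [arc0, segment_eq_image']
    ext z
    constructor
    · rintro ⟨t, rfl⟩
      exact ⟨t, t.2, by simp [f, Complex.real_smul]⟩
    · rintro ⟨t, ht, rfl⟩
      exact ⟨⟨t, ht⟩, by simp [f, Complex.real_smul]⟩
  have hemb := hf.isClosedEmbedding hinj
  exact ⟨hemb.isEmbedding.toHomeomorph.trans (Homeomorph.setCongr hrange)⟩

theorem isMarking_arc0 : IsMarking {arc0} := by
  refine ⟨Set.finite_singleton _, ?_⟩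
  rintro a ha
  rw [Set.mem_singleton_iff] at ha
  subst ha
  refine ⟨isArc_arc0, ?_⟩
  rw [arc0, segment_eq_image']
  rintro z ⟨t, ⟨ht0, ht1⟩, rfl⟩
  simp only [tile, Set.mem_ofPred_eq, Complex.real_smul]
  have e1 : (1 / 2 + (t : ℂ) * (1 + I / 2 - 1 / 2) : ℂ).re = 1 / 2 + t * (1 / 2) := by
    simp; norm_num
  have e2 : (1 / 2 + (t : ℂ) * (1 + I / 2 - 1 / 2) : ℂ).im = t * (1 / 2) := by
    simp
  rw [e1, e2]
  push_cast
  refine ⟨?_, ?_, ?_, ?_⟩ <;> linarith

theorem isPlacement_place (n : ℤ) : IsPlacement (fun p => place (dirn n p) p) :=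
  fun p => place_image (dirn_lt n p) p

/-! ### the arms -/

/-- the lattice points of the `k`-th arm -/
noncomputable def wk (n : ℤ) (k m : ℕ) : ℂ := g (arm n k m)

/-- the parametrised arm -/
noncomputable def gam (n : ℤ) (k : ℕ) (t : ℝ) : ℂ := Phi (pl (wk n k) t)

theorem Phi_inj : Function.Injective Phi := by
  intro z w h
  simp only [Phi] at h
  have h1 : (1 + I : ℂ) / 2 ≠ 0 := by
    intro h0
    have := congrArg Complex.re h0
    simp at this
  exact mul_left_cancel₀ h1 (add_right_cancel h)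

theorem pl_wk (n : ℤ) (k : ℕ) (t : ℝ) : pl (wk n k) t =
    g (arm n k ⌊t⌋₊) + ((t - ⌊t⌋₊ : ℝ) : ℂ) * (g (nxt n (arm n k ⌊t⌋₊)) - g (arm n k ⌊t⌋₊)) := by
  simp only [pl, wk, arm_succ]

theorem gam_eq {n : ℤ} (hn : 1 ≤ n) {k l : ℕ} (hk : (k : ℤ) < n) (hl : (l : ℤ) < n) {s t : ℝ}
    (hs : 0 ≤ s) (ht : 0 ≤ t) (h : gam n k s = gam n l t) : k = l ∧ s = t := by
  have h1 := Phi_inj h
  rw [pl_wk, pl_wk] at h1
  have h2 := half_open_inj hn (Vtx_arm hn hk _) (Vtx_arm hn hl _)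
    (by linarith [Nat.floor_le hs]) (by linarith [Nat.lt_floor_add_one s])
    (by linarith [Nat.floor_le ht]) (by linarith [Nat.lt_floor_add_one t]) h1
  have h3 := arm_inj hn hk hl h2.1
  refine ⟨h3.1, ?_⟩
  have h4 := h2.2
  rw [h3.2] at h4
  linarith

theorem continuousOn_gam (n : ℤ) (k : ℕ) : ContinuousOn (gam n k) (Set.Ici 0) := by
  have h := continuousOn_pl (wk n k)
  unfold gam Phi
  fun_prop

/-- The `k`-th arm. -/
noncomputable def armSet (n : ℤ) (k : ℕ) : Set ℂ := gam n k '' Set.Ici 0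

theorem armSet_eq (n : ℤ) (k : ℕ) : armSet n k =
    Phi '' ⋃ m : ℕ, segment ℝ (g (arm n k m)) (g (nxt n (arm n k m))) := by
  have h := image_pl (wk n k)
  have h2 : armSet n k = Phi '' (pl (wk n k) '' Set.Ici 0) := by
    rw [Set.image_image]
    rfl
  rw [h2, h]
  simp only [wk, arm_succ]

theorem marked_eq_arms {n : ℕ} (hn : 0 < n) :
    marked {arc0} (fun p => place (dirn n p) p) = ⋃ k : Fin n, armSet n k := by
  have hn' : (1 : ℤ) ≤ n := by omega
  rw [marked_eq hn']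
  apply Set.Subset.antisymm
  · rintro z ⟨w, hw, rfl⟩
    simp only [Set.mem_iUnion] at hw ⊢
    obtain ⟨P, hP, hw⟩ := hw
    obtain ⟨k, m, hk, rfl⟩ := exists_arm' hn' hP
    refine ⟨⟨k, by omega⟩, ?_⟩
    rw [armSet_eq]
    exact ⟨w, Set.mem_iUnion.2 ⟨m, hw⟩, rfl⟩
  · apply Set.iUnion_subset
    intro k
    rw [armSet_eq]
    apply Set.image_mono
    apply Set.iUnion_subset
    intro m
    exact Set.subset_iUnion₂_of_subset _ (Vtx_arm hn' (by have := k.2; omega) m)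
      (Set.Subset.refl _)

theorem armSet_disjoint {n : ℕ} (hn : 0 < n) (k l : Fin n) (hkl : k ≠ l) :
    Disjoint (armSet n k) (armSet n l) := by
  rw [Set.disjoint_left]
  rintro z ⟨s, hs, rfl⟩ ⟨t, ht, h⟩
  have := gam_eq (n := n) (by omega) (k := l) (l := k) (by have := l.2; omega)
    (by have := k.2; omega) ht hs h
  exact hkl (Fin.ext this.1.symm)

theorem gam_injOn {n : ℕ} (hn : 0 < n) (k : Fin n) : Set.InjOn (gam n k) (Set.Ici 0) := by
  intro s hs t ht h
  exact (gam_eq (n := n) (by omega) (k := k) (l := k) (by have := k.2; omega)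
    (by have := k.2; omega) hs ht h).2

/-! ### going to infinity -/

theorem norm_step {n : ℤ} (hn : 1 ≤ n) {P : ℤ × ℤ} (hP : Vtx n P) :
    ‖g (nxt n P) - g P‖ ≤ 1 := by
  obtain ⟨dx, dy, h1, h2⟩ := disp hn hP
  have e : g (nxt n P) - g P = (dx : ℂ) + (dy : ℂ) * I := by
    rw [h1]
    simp only [g]
    push_cast
    ring
  rw [e]
  rcases h2 with ⟨_, rfl, rfl⟩ | ⟨_, rfl, rfl⟩ | ⟨_, rfl, rfl⟩ | ⟨_, rfl, rfl⟩ <;> simp

theorem tendsto_g : Tendsto (fun P : ℤ × ℤ => ‖g P‖) cofinite atTop := by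
  rw [Filter.tendsto_atTop]
  intro R
  have : {P : ℤ × ℤ | ¬ R ≤ ‖g P‖} ⊆
      (Set.Icc (-⌈R⌉) ⌈R⌉) ×ˢ (Set.Icc (-⌈R⌉) ⌈R⌉) := by
    rintro ⟨x, y⟩ h
    simp only [Set.mem_ofPred_eq, not_le] at h
    have h1 : |(x : ℝ)| ≤ R := by
      have := Complex.abs_re_le_norm (g (x, y))
      rw [g_re] at this
      simp only at this
      linarith
    have h2 : |(y : ℝ)| ≤ R := by
      have := Complex.abs_im_le_norm (g (x, y))
      rw [g_im] at this
      simp only at this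
      linarith
    have h3 := Int.le_ceil R
    rw [abs_le] at h1 h2
    simp only [Set.mem_prod, Set.mem_Icc]
    have k1 : (-(⌈R⌉ : ℤ) : ℝ) ≤ x := by linarith
    have k2 : (x : ℝ) ≤ (⌈R⌉ : ℤ) := by linarith
    have k3 : (-(⌈R⌉ : ℤ) : ℝ) ≤ y := by linarith
    have k4 : (y : ℝ) ≤ (⌈R⌉ : ℤ) := by linarith
    exact ⟨⟨by exact_mod_cast k1, by exact_mod_cast k2⟩, ⟨by exact_mod_cast k3, by exact_mod_cast k4⟩⟩
  exact ((Set.finite_Icc _ _).prod (Set.finite_Icc _ _)).subset this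

theorem tendsto_wk {n : ℤ} (hn : 1 ≤ n) {k : ℕ} (hk : (k : ℤ) < n) :
    Tendsto (fun m => ‖wk n k m‖) atTop atTop := by
  have h1 : Function.Injective (arm n k) := fun m m' h => (arm_inj hn hk hk h).2
  have h2 := tendsto_g.comp h1.tendsto_cofinite
  rw [Nat.cofinite_eq_atTop] at h2
  exact h2

theorem tendsto_pl {n : ℤ} (hn : 1 ≤ n) {k : ℕ} (hk : (k : ℤ) < n) :
    Tendsto (fun t => ‖pl (wk n k) t‖) atTop atTop := by
  have h1 : Tendsto (fun t : ℝ => ‖wk n k ⌊t⌋₊‖ + (-1)) atTop atTop :=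
    tendsto_atTop_add_const_right _ _ ((tendsto_wk hn hk).comp tendsto_nat_floor_atTop)
  refine tendsto_atTop_mono' atTop ?_ h1
  filter_upwards [Filter.eventually_ge_atTop (0 : ℝ)] with t ht
  rw [pl_wk]
  have h2 := norm_step hn (Vtx_arm hn hk ⌊t⌋₊)
  have h3 : ‖((t - ⌊t⌋₊ : ℝ) : ℂ)‖ ≤ 1 := by
    rw [Complex.norm_real, Real.norm_eq_abs, abs_le]
    constructor
    · linarith [Nat.floor_le ht]
    · linarith [Nat.lt_floor_add_one t]
  have h4 : ‖((t - ⌊t⌋₊ : ℝ) : ℂ) * (g (nxt n (arm n k ⌊t⌋₊)) - g (arm n k ⌊t⌋₊))‖ ≤ 1 := by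
    rw [norm_mul]
    calc _ ≤ (1 : ℝ) * 1 := mul_le_mul h3 h2 (norm_nonneg _) zero_le_one
      _ = 1 := one_mul _
  have h5 := norm_sub_le_norm_add (g (arm n k ⌊t⌋₊))
    (((t - ⌊t⌋₊ : ℝ) : ℂ) * (g (nxt n (arm n k ⌊t⌋₊)) - g (arm n k ⌊t⌋₊)))
  simp only [wk]
  linarith

theorem cocompact_Ici : Tendsto (fun t : Set.Ici (0 : ℝ) => (t : ℝ))
    (cocompact (Set.Ici (0 : ℝ))) atTop := by
  have h1 := (isClosed_Ici (a := (0 : ℝ))).isClosedEmbedding_subtypeVal.tendsto_cocompact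
  have h2 := (tendsto_norm_cocompact_atTop (E := ℝ)).comp h1
  refine h2.congr ?_
  intro t
  simp only [Function.comp_apply, Real.norm_eq_abs]
  exact abs_of_nonneg t.2

/-- A continuous injective curve on `[0,∞)` going to infinity is a closed embedding. -/
theorem closedEmbedding {γ : ℝ → ℂ} (hc : ContinuousOn γ (Set.Ici 0))
    (hi : Set.InjOn γ (Set.Ici 0)) (ht : Tendsto (fun t => ‖γ t‖) atTop atTop) :
    Topology.IsClosedEmbedding (fun t : Set.Ici (0 : ℝ) => γ t) := by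
  have h1 : Continuous (fun t : Set.Ici (0 : ℝ) => γ t) := continuousOn_iff_continuous_domRestrict.1 hc
  have h2 : Function.Injective (fun t : Set.Ici (0 : ℝ) => γ t) := by
    intro s t h
    exact Subtype.ext (hi s.2 t.2 h)
  have h3 : Tendsto (fun t : Set.Ici (0 : ℝ) => γ t) (cocompact _) (cocompact ℂ) := by
    have e : cocompact ℂ = comap norm atTop := by
      rw [← Metric.cobounded_eq_cocompact, ← comap_norm_atTop]
    rw [e, tendsto_comap_iff]
    exact ht.comp cocompact_Ici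
  have h4 : IsProperMap (fun t : Set.Ici (0 : ℝ) => γ t) :=
    isProperMap_iff_tendsto_cocompact.2 ⟨h1, h3⟩
  exact Topology.IsClosedEmbedding.of_continuous_injective_isClosedMap h1 h2 h4.isClosedMap

theorem tendsto_Phi {γ : ℝ → ℂ} (h : Tendsto (fun t => ‖γ t‖) atTop atTop) :
    Tendsto (fun t => ‖Phi (γ t)‖) atTop atTop := by
  have hpos : 0 < ‖(1 + I) / 2‖ := by
    rw [norm_pos_iff]
    intro h0
    have := congrArg Complex.re h0
    simp at this
  have h1 : Tendsto (fun t => ‖(1 + I) / 2‖ * ‖γ t‖ + (-‖(1 / 2 : ℂ)‖)) atTop atTop :=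
    tendsto_atTop_add_const_right _ _ (h.const_mul_atTop hpos)
  refine tendsto_atTop_mono ?_ h1
  intro t
  have := norm_sub_le_norm_add (((1 + I) / 2) * γ t) (1 / 2)
  rw [norm_mul] at this
  simp only [Phi]
  linarith

theorem gam_emb {n : ℕ} (hn : 0 < n) (k : Fin n) :
    Topology.IsClosedEmbedding (fun t : Set.Ici (0 : ℝ) => gam n k t) :=
  closedEmbedding (continuousOn_gam n k) (gam_injOn hn k)
    (tendsto_Phi (tendsto_pl (by omega) (by have := k.2; omega)))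

theorem range_gam (n : ℤ) (k : ℕ) :
    Set.range (fun t : Set.Ici (0 : ℝ) => gam n k t) = armSet n k := by
  ext z
  constructor
  · rintro ⟨t, rfl⟩
    exact ⟨t, t.2, rfl⟩
  · rintro ⟨t, ht, rfl⟩
    exact ⟨⟨t, ht⟩, rfl⟩

theorem armSet_curve {n : ℕ} (hn : 0 < n) (k : Fin n) :
    IsClosed (armSet n k) ∧ IsUnboundedSimpleCurve (armSet n k) := by
  have h := gam_emb hn k
  refine ⟨?_, Or.inr ⟨h.isEmbedding.toHomeomorph.trans (Homeomorph.setCongr (range_gam n k))⟩, ?_⟩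
  · rw [← range_gam]
    exact h.isClosed_range
  · intro hb
    obtain ⟨C, hC⟩ := hb.exists_norm_le
    have h1 := tendsto_Phi (tendsto_pl (n := n) (by omega) (k := k) (by have := k.2; omega))
    obtain ⟨t, ht0, ht1⟩ := ((h1.eventually_gt_atTop C).and (eventually_ge_atTop 0)).exists
    exact absurd (hC _ ⟨t, ht1, rfl⟩) (not_le.2 ht0)

/-! ### winding -/

/-- lattice points seen from the centre -/
noncomputable def zk (n : ℤ) (k m : ℕ) : ℂ := wk n k m - (1 - I) / 2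

theorem zk_re (n : ℤ) (k m : ℕ) : (zk n k m).re = (arm n k m).1 - 1 / 2 := by
  simp [zk, wk]

theorem zk_im (n : ℤ) (k m : ℕ) : (zk n k m).im = (arm n k m).2 + 1 / 2 := by
  simp [zk, wk]
  norm_num

theorem pl_zk (n : ℤ) (k : ℕ) (t : ℝ) : pl (zk n k) t = pl (wk n k) t - (1 - I) / 2 := by
  simp only [pl, zk]
  ring

theorem zk_ne (n : ℤ) (k m : ℕ) : zk n k m ≠ 0 := by
  intro h
  have := congrArg Complex.re h
  rw [zk_re] at this
  simp only [Complex.zero_re] at this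
  have h2 : (((2 * (arm n k m).1 - 1 : ℤ)) : ℝ) = 0 := by push_cast; linarith
  have h3 : 2 * (arm n k m).1 - 1 = 0 := by exact_mod_cast h2
  omega

theorem div_im_pos {a b : ℂ} (h : 0 < b.im * a.re - b.re * a.im) : 0 < ((a + b) / a).im := by
  have ha : a ≠ 0 := by
    rintro rfl
    simp at h
  have hn : 0 < Complex.normSq a := Complex.normSq_pos.2 ha
  rw [Complex.div_im]
  simp only [add_re, add_im]
  rw [← sub_div]
  apply div_pos _ hn
  linarith

theorem zk_turn {n : ℤ} (hn : 1 ≤ n) {k : ℕ} (hk : (k : ℤ) < n) (m : ℕ) :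
    0 < (zk n k (m + 1) / zk n k m).im := by
  obtain ⟨dx, dy, h1, h2⟩ := disp hn (Vtx_arm hn hk m)
  have e : zk n k (m + 1) = zk n k m + ((dx : ℂ) + (dy : ℂ) * I) := by
    simp only [zk, wk, arm_succ, h1, g]
    push_cast
    ring
  rw [e]
  apply div_im_pos
  rw [zk_re, zk_im]
  have e1 : ((dx : ℂ) + (dy : ℂ) * I).re = dx := by simp
  have e2 : ((dx : ℂ) + (dy : ℂ) * I).im = dy := by simp
  rw [e1, e2]
  rcases h2 with ⟨h, rfl, rfl⟩ | ⟨h, rfl, rfl⟩ | ⟨h, rfl, rfl⟩ | ⟨h, rfl, rfl⟩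
  · have h3 : 3 ≤ (arm n k m).1 := by simp only [Rg] at h; omega
    have h4 : (3 : ℝ) ≤ (arm n k m).1 := by exact_mod_cast h3
    push_cast
    linarith
  · have h3 : 0 ≤ (arm n k m).2 := by simp only [Tp] at h; omega
    have h4 : (0 : ℝ) ≤ (arm n k m).2 := by exact_mod_cast h3
    push_cast
    linarith
  · have h3 : (arm n k m).1 ≤ 0 := by simp only [Lf] at h; omega
    have h4 : ((arm n k m).1 : ℝ) ≤ 0 := by exact_mod_cast h3
    push_cast
    linarith
  · have h3 : (arm n k m).2 ≤ -1 := by simp only [Bt] at h; omega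
    have h4 : ((arm n k m).2 : ℝ) ≤ -1 := by exact_mod_cast h3
    push_cast
    linarith

theorem zk_ang {n : ℤ} (hn : 1 ≤ n) {k : ℕ} (hk : (k : ℤ) < n) :
    Tendsto (ang (zk n k)) atTop atTop := by
  apply tendsto_ang (zk_ne n k) (zk_turn hn hk)
  · rw [Filter.frequently_atTop]
    intro m
    obtain ⟨m', hm', h⟩ := (visits hn hk m).1
    refine ⟨m', hm', ?_⟩
    rw [zk_re]
    have h3 : 3 ≤ (arm n k m').1 := by simp only [Rg] at h; omega
    have h4 : (3 : ℝ) ≤ (arm n k m').1 := by exact_mod_cast h3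
    linarith
  · rw [Filter.frequently_atTop]
    intro m
    obtain ⟨m', hm', h⟩ := (visits hn hk m).2.2.1
    refine ⟨m', hm', ?_⟩
    rw [zk_re]
    have h3 : (arm n k m').1 ≤ 0 := by simp only [Lf] at h; omega
    have h4 : ((arm n k m').1 : ℝ) ≤ 0 := by exact_mod_cast h3
    linarith
  · rw [Filter.frequently_atTop]
    intro m
    obtain ⟨m', hm', h⟩ := (visits hn hk m).2.1
    refine ⟨m', hm', ?_⟩
    rw [zk_im]
    have h3 : 0 ≤ (arm n k m').2 := by simp only [Tp] at h; omega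
    have h4 : (0 : ℝ) ≤ (arm n k m').2 := by exact_mod_cast h3
    linarith
  · rw [Filter.frequently_atTop]
    intro m
    obtain ⟨m', hm', h⟩ := (visits hn hk m).2.2.2
    refine ⟨m', hm', ?_⟩
    rw [zk_im]
    have h3 : (arm n k m').2 ≤ -1 := by simp only [Bt] at h; omega
    have h4 : ((arm n k m').2 : ℝ) ≤ -1 := by exact_mod_cast h3
    linarith

theorem pl_zk_ne {n : ℤ} (hn : 1 ≤ n) {k : ℕ} (hk : (k : ℤ) < n) {t : ℝ} (ht : 0 ≤ t) :
    pl (zk n k) t ≠ 0 := by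
  have h1 : pl (zk n k) t = zk n k ⌊t⌋₊ * rat (zk n k) ⌊t⌋₊ t := by
    simp only [pl, rat]
    field_simp [zk_ne]
  rw [h1]
  apply mul_ne_zero (zk_ne n k _)
  exact Complex.slitPlane_ne_zero (rat_slit (zk_turn hn hk) _ (Nat.floor_le ht))

theorem gam_pl (n : ℤ) (k : ℕ) (t : ℝ) : gam n k t = 1 + ((1 + I) / 2) * pl (zk n k) t := by
  rw [pl_zk, gam, Phi]
  have h : (1 + I) / 2 * ((1 - I) / 2) = (1 : ℂ) / 2 := by
    have := I_mul_I
    linear_combination (-1 / 4 : ℂ) * this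
  linear_combination h

theorem armSet_spirals {n : ℕ} (hn : 0 < n) (k : Fin n) : SpiralsOutAround 1 (armSet n k) := by
  have hn' : (1 : ℤ) ≤ n := by omega
  have hk : ((k : ℕ) : ℤ) < n := by have := k.2; omega
  have h0 : ((1 + I) / 2 : ℂ) ≠ 0 := by
    intro h0
    have := congrArg Complex.re h0
    simp at this
  have hpos : 0 < ‖(1 + I) / 2‖ := norm_pos_iff.2 h0
  refine ⟨(armSet_curve hn k).1, gam n k, fun t => ‖(1 + I) / 2‖ * ‖pl (zk n k) t‖,
    fun t => ((1 + I) / 2 : ℂ).arg + angle (zk n k) t, continuousOn_gam n k, ?_, ?_, ?_, ?_, ?_⟩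
  · exact continuousOn_const.add (continuousOn_angle (zk_turn hn' hk))
  · exact ⟨fun t ht => ⟨t, ht, rfl⟩, gam_injOn hn k, fun z hz => hz⟩
  · intro t ht
    refine ⟨mul_pos hpos (norm_pos_iff.2 (pl_zk_ne hn' hk ht)), ?_⟩
    rw [gam_pl]
    congr 1
    have h1 := polar_pl (zk_ne n k) t
    have h2 := Complex.norm_mul_exp_arg_mul_I ((1 + I) / 2)
    push_cast
    rw [add_mul, Complex.exp_add]
    calc (1 + I) / 2 * pl (zk n k) t
        = ((‖(1 + I) / 2‖ : ℂ) * Complex.exp (((1 + I) / 2 : ℂ).arg * I)) *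
          ((‖pl (zk n k) t‖ : ℂ) * Complex.exp (angle (zk n k) t * I)) := by rw [← h1, h2]
      _ = _ := by ring
  · apply Tendsto.const_mul_atTop hpos
    have h1 : Tendsto (fun t => ‖pl (wk n k) t‖ + (-‖(1 - I) / 2‖)) atTop atTop :=
      tendsto_atTop_add_const_right _ _ (tendsto_pl hn' hk)
    refine tendsto_atTop_mono ?_ h1
    intro t
    rw [pl_zk]
    have := norm_sub_norm_le (pl (wk n k) t) ((1 - I) / 2)
    linarith
  · exact tendsto_atTop_add_const_left _ _ (tendsto_angle (zk_turn hn' hk) (zk_ang hn' hk))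

end Pool.Agent.H56.Spiral
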